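import Pool.Agent.H76.SF.Stm

set_option autoImplicit false

namespace Pool.Agent.H82.SF
open Finset Classical H76.SF

lemma split {V : Type} [Fintype V] (G : SimpleGraph V) (v : V) (S : Finset V) :
    (S.filter (fun x => G.Adj v x)).card + (S.filter (fun x => Gᶜ.Adj v x)).card +
      (S.filter (fun x => x = v)).card = S.card := by
  have h1 := card_filter_add_card_filter_not (s := S) (fun x => G.Adj v x)
  have h2 := card_filter_add_card_filter_not (s := S.filter (fun x => ¬ G.Adj v x)) (fun x => Gᶜ.Adj v x)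
  rw [filter_filter, filter_filter] at h2
  have h3 : S.filter (fun x => ¬ G.Adj v x ∧ Gᶜ.Adj v x) = S.filter (fun x => Gᶜ.Adj v x) := by
    apply filter_congr
    intro x _
    rw [SimpleGraph.compl_adj]
    tauto
  have h4 : S.filter (fun x => ¬ G.Adj v x ∧ ¬ Gᶜ.Adj v x) = S.filter (fun x => x = v) := by
    apply filter_congr
    intro x _
    rw [SimpleGraph.compl_adj]
    constructor
    · rintro ⟨h5, h6⟩
      by_contra h7
      exact h6 ⟨fun h => h7 h.symm, h5⟩
    · rintro rfl
      exact ⟨G.loopless.irrefl x, fun h => h.1 rfl⟩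
  rw [h3, h4] at h2
  omega

theorem t_ONE (hGRE : S_GRE) (hSPA : S_SPA) : S_ONE := by
  intro V _ G n r q hr hV hn hdeg
  by_contra hno
  obtain ⟨m, hm⟩ : ∃ m, m = r * (q + 1) := ⟨_, rfl⟩
  rw [← hm] at hn
  have hmr : r ≤ m := by rw [hm]; nlinarith [Nat.zero_le (r * q)]
  have hne : Nonempty V := by
    rw [← Fintype.card_pos_iff]
    omega
  have hcl : ∀ (v : V) (S : Finset V), (S.filter (fun x => x = v)).card ≤ 1 := by
    intro v S
    rw [card_le_one]
    intro a ha b hb
    rw [(mem_filter.1 ha).2, (mem_filter.1 hb).2]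
  have hc0 : ∀ (v : V) (S : Finset V), v ∉ S → (S.filter (fun x => x = v)).card = 0 := by
    intro v S hv
    rw [card_eq_zero, filter_eq_empty_iff]
    rintro x hx rfl
    exact hv hx
  have hdG : ∀ v, n + r ≤ (univ.filter (fun x => G.Adj v x)).card := by
    intro v
    have h1 := split G v univ
    have h2 := hcl v univ
    have h3 := hdeg v
    rw [card_univ, hV] at h1
    omega
  obtain ⟨v⟩ := hne
  obtain ⟨W, hW1, hW2⟩ := hSPA V G n r q v hr (by have := hdG v; omega) hno
  rw [← hm] at hW2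
  rw [hV] at hW1
  obtain ⟨T, hT⟩ : ∃ T, T = W.filter (fun w => ¬ m ≤ (W.filter (fun x => G.Adj w x)).card) := ⟨_, rfl⟩
  have hTc : n ≤ T.card := by
    have h1 := card_filter_add_card_filter_not (s := W) (fun w => m ≤ (W.filter (fun x => G.Adj w x)).card)
    rw [← hT] at h1
    omega
  have hTW : T ⊆ W := by rw [hT]; exact filter_subset _ _
  have hTd : ∀ w ∈ T, (W.filter (fun x => G.Adj w x)).card < m := by
    intro w hw
    rw [hT] at hw
    have := (mem_filter.1 hw).2
    omega
  have hUc : (Wᶜ).card = n + 1 := by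
    rw [card_compl, hV]
    omega
  have hsum : ∀ v : V, (W.filter (fun x => Gᶜ.Adj v x)).card + (Wᶜ.filter (fun x => Gᶜ.Adj v x)).card =
      (univ.filter (fun x => Gᶜ.Adj v x)).card := by
    intro v
    rw [← card_union_of_disjoint]
    · congr 1
      ext x
      simp only [mem_union, mem_filter, mem_compl, mem_univ, true_and]
      tauto
    · rw [disjoint_left]
      intro x hx hx2
      exact (mem_compl.1 (mem_filter.1 hx2).1) (mem_filter.1 hx).1
  have hTU : ∀ w ∈ T, (Wᶜ.filter (fun x => Gᶜ.Adj w x)).card + r ≤ m := by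
    intro w hw
    have h1 := split G w W
    have h2 := hcl w W
    have h3 := hTd w hw
    have h4 := hdeg w
    have h5 := hsum w
    omega
  obtain ⟨T0, hT0, hT0c⟩ := exists_subset_card_eq hTc
  obtain ⟨Bd, hBd⟩ : ∃ Bd, Bd = Wᶜ.filter (fun u => (W.filter (fun x => G.Adj u x)).card ≤ 2 * m) := ⟨_, rfl⟩
  have hBU : Bd ⊆ Wᶜ := by rw [hBd]; exact filter_subset _ _
  have hdc : ∑ u ∈ Bd, (T0.filter (fun x => Gᶜ.Adj u x)).card = ∑ w ∈ T0, (Bd.filter (fun x => Gᶜ.Adj w x)).card := by
    simp only [card_filter]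
    rw [sum_comm]
    apply sum_congr rfl
    intro w _
    apply sum_congr rfl
    intro u _
    by_cases h : Gᶜ.Adj u w
    · rw [if_pos h, if_pos h.symm]
    · rw [if_neg h, if_neg (fun h' => h h'.symm)]
  have hlow : Bd.card * (n - 2 * m) ≤ ∑ u ∈ Bd, (T0.filter (fun x => Gᶜ.Adj u x)).card := by
    rw [← smul_eq_mul, ← sum_const]
    apply sum_le_sum
    intro u hu
    have h1 := split G u T0
    have huU := hBU hu
    have h2 := hc0 u T0 (fun h => (mem_compl.1 huU) (hTW (hT0 h)))
    have h3 : (T0.filter (fun x => G.Adj u x)).card ≤ (W.filter (fun x => G.Adj u x)).card :=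
      card_le_card (filter_subset_filter _ (hT0.trans hTW))
    rw [hBd] at hu
    have h4 := (mem_filter.1 hu).2
    omega
  have hup : ∑ w ∈ T0, (Bd.filter (fun x => Gᶜ.Adj w x)).card ≤ n * m := by
    rw [← hT0c, ← smul_eq_mul, ← sum_const]
    apply sum_le_sum
    intro w hw
    have h1 := hTU w (hT0 hw)
    have h2 : (Bd.filter (fun x => Gᶜ.Adj w x)).card ≤ (Wᶜ.filter (fun x => Gᶜ.Adj w x)).card :=
      card_le_card (filter_subset_filter _ hBU)
    omega
  have hBc : Bd.card ≤ 2 * m := by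
    by_contra hcon
    push Not at hcon
    obtain ⟨k, hk⟩ : ∃ k, n = 20 * m + k := ⟨n - 20 * m, by omega⟩
    have h1 : Bd.card * (n - 2 * m) ≤ n * m := by rw [hdc] at hlow; exact hlow.trans hup
    have h2 : (2 * m + 1) * (n - 2 * m) ≤ n * m := (Nat.mul_le_mul_right _ hcon).trans h1
    have h3 : n - 2 * m = 18 * m + k := by omega
    rw [h3, hk] at h2
    nlinarith [Nat.zero_le (m * k), Nat.zero_le (m * m)]
  have hTne : T.Nonempty := by
    rw [← card_pos]
    omega
  obtain ⟨w, hw⟩ := hTne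
  have hwW := hTW hw
  have hgood : r ≤ (Wᶜ.filter (fun x => G.Adj w x ∧ x ∉ Bd)).card := by
    have h1 := split G w Wᶜ
    have h2 := hc0 w Wᶜ (fun h => (mem_compl.1 h) hwW)
    have h3 := hTU w hw
    have h4 := card_filter_add_card_filter_not (s := Wᶜ.filter (fun x => G.Adj w x)) (fun x => x ∉ Bd)
    rw [filter_filter, filter_filter] at h4
    have h5 : (Wᶜ.filter (fun x => G.Adj w x ∧ ¬ x ∉ Bd)).card ≤ Bd.card := by
      apply card_le_card
      intro x hx
      have := (mem_filter.1 hx).2.2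
      exact not_not.1 this
    omega
  obtain ⟨Us, hUs, hUsc⟩ := exists_subset_card_eq hgood
  have hUsp : ∀ x ∈ Us, x ∉ W ∧ G.Adj w x ∧ x ∉ Bd := by
    intro x hx
    have := mem_filter.1 (hUs hx)
    exact ⟨mem_compl.1 this.1, this.2⟩
  have hLc : n ≤ ((univ.filter (fun x => G.Adj w x)) \ Us).card := by
    have h1 := le_card_sdiff Us (univ.filter (fun x => G.Adj w x))
    have h2 := hdG w
    omega
  obtain ⟨L, hL, hLn⟩ := exists_subset_card_eq hLc
  have hLp : ∀ x ∈ L, G.Adj w x ∧ x ∉ Us := by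
    intro x hx
    have := mem_sdiff.1 (hL hx)
    exact ⟨(mem_filter.1 this.1).2, this.2⟩
  obtain ⟨e⟩ : Nonempty (Fin r ≃ Us) := ⟨(Us.equivFinOfCardEq hUsc).symm⟩
  apply hno
  refine hGRE V G n r q w L (fun i => (e i : V)) hLn (fun x hx => (hLp x hx).1) ?_ ?_ ?_
  · intro i j hij
    exact e.injective (Subtype.ext hij)
  · intro i
    have h1 := hUsp _ (e i).2
    exact ⟨fun h => h1.1 (by rw [h]; exact hwW), fun h => (hLp _ h).2 (e i).2⟩
  · intro i
    rw [← hm]
    have h1 := hUsp _ (e i).2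
    have h2 : 2 * m < (W.filter (fun x => G.Adj (e i : V) x)).card := by
      by_contra h3
      apply h1.2.2
      rw [hBd, mem_filter]
      exact ⟨mem_compl.2 h1.1, by omega⟩
    have h3 : W.filter (fun x => G.Adj (e i : V) x) ⊆
        (univ.filter (fun x => G.Adj (e i : V) x ∧ x ∉ L ∧ x ≠ w)) ∪ ((W.filter (fun x => G.Adj w x)) ∪ {w}) := by
      intro x hx
      rw [mem_union, mem_union, mem_singleton, mem_filter, mem_filter]
      have hx2 := mem_filter.1 hx
      by_cases hxw : x = w
      · right; right; exact hxw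
      · by_cases hxL : x ∈ L
        · right; left; exact ⟨hx2.1, (hLp x hxL).1⟩
        · left; exact ⟨mem_univ _, hx2.2, hxL, hxw⟩
    have h4 := card_le_card h3
    have h5 := card_union_le (univ.filter (fun x => G.Adj (e i : V) x ∧ x ∉ L ∧ x ≠ w)) ((W.filter (fun x => G.Adj w x)) ∪ {w})
    have h6 := card_union_le (W.filter (fun x => G.Adj w x)) ({w} : Finset V)
    rw [card_singleton] at h6
    have h7 := hTd w hw
    omega

end Pool.Agent.H82.SF
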